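import Pool.Agent.RCM.StmtsA
import Pool.Agent.Helper35_RCM.Base

/-!
# Row rca SUP (MP_33201b_co): every closure with large corank moves many elements
-/

set_option autoImplicit false

namespace Pool.Agent.RCM.H87

open Set

universe u

/-- the sequence of lengths -/
def lenA (C : ℕ) : ℕ → ℕ
  | 0 => 1
  | (i + 1) => 16 * C * lenA C i * (lenA C i + 1) + lenA C i + 1

theorem lenA_succ (C i : ℕ) :
    lenA C (i + 1) = 16 * C * lenA C i * (lenA C i + 1) + lenA C i + 1 := rfl

theorem one_le_lenA (C i : ℕ) : 1 ≤ lenA C i := by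
  cases i with
  | zero => exact le_refl _
  | succ i => rw [lenA_succ]; omega

theorem lenA_mono (C : ℕ) : Monotone (lenA C) := by
  apply monotone_nat_of_le_succ
  intro i
  rw [lenA_succ]
  omega

/-- the number of elements of a state with colours in `G` is at most the size of `G` -/
theorem card_col_le {E : Type u} {K : Type} [Finite E] [Finite K] (κ : E → K) (T : Set E)
    (G : Set K) (hinj : InjOn κ T) : {y ∈ T | κ y ∈ G}.ncard ≤ G.ncard := by
  have h1 : (κ '' {y ∈ T | κ y ∈ G}).ncard = {y ∈ T | κ y ∈ G}.ncard :=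
    (hinj.mono (fun y hy => hy.1)).ncard_image
  rw [← h1]
  apply ncard_le_ncard _ (toFinite _)
  rintro c ⟨y, hy, rfl⟩
  exact hy.2

theorem sup (hOPB : OpbStmt.{u}) (hGNB : GnbStmt.{u}) (hHML : HmlStmt.{u}) (hEND : EndStmt.{u})
    (hARI : AriStmt) : SupStmt.{u} := by
  intro C
  rcases Nat.eq_zero_or_pos C with hC | hC
  · subst hC
    refine ⟨0, ?_⟩
    intro E K _ _ M N κ s _ t P X T z _ _ _ _
    simp
  · refine ⟨1000 * C * lenA C (64 * C ^ 2), ?_⟩
    intro E K _ _ M N κ s hcol t P X T z hmx hst hun hz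
    show (if z < 1000 * C * lenA C (64 * C ^ 2) then 0 else C * z) ≤ _
    split_ifs with hlt
    · exact Nat.zero_le _
    · by_contra hcon
      rw [not_le] at hcon
      rw [not_lt] at hlt
      have := Fintype.ofFinite K
      obtain ⟨c, hc⟩ := hun
      -- one unused colour
      obtain ⟨X', hX'⟩ : ∃ X' : Set K, X' = X ∪ (Un κ X T \ {c}) := ⟨_, rfl⟩
      have hXX : X ⊆ X' := by rw [hX']; exact subset_union_left
      have hun' : Un κ X' T = {c} := by
        ext d
        rw [hX']
        constructor
        · rintro ⟨h1, h2⟩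
          by_contra h3
          apply h1
          right
          exact ⟨⟨fun h => h1 (Or.inl h), h2⟩, h3⟩
        · intro h
          rw [mem_singleton_iff] at h
          subst h
          refine ⟨?_, hc.2⟩
          rintro (h | h)
          · exact hc.1 h
          · exact h.2 rfl
      have hst' : St M N κ P X' t T := by
        refine ⟨hst.ri, hst.card, hst.fr, hst.dj, ?_⟩
        intro e he h
        rw [hX'] at h
        rcases h with h | h
        · exact hst.col e he h
        · exact h.1.2 ⟨e, he, rfl⟩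
      have hmon := H35.mon' E K M N κ P X X' T hXX
      have hle : (T \ Sta M N κ P X' T).ncard ≤ (T \ Sta M N κ P X T).ncard :=
        ncard_le_ncard (sdiff_subset_sdiff_right hmon.2.1) (toFinite _)
      have hplc := H35.plc' E K M N κ s t P X' T hcol hmx hst'
      rw [hun', ncard_singleton] at hplc
      have hPl : (Pl M N κ P X' T).ncard ≤ C * z := by omega
      obtain ⟨I, hI⟩ : ∃ I : ℕ, I = 64 * C ^ 2 := ⟨_, rfl⟩
      rw [← hI] at hlt
      obtain ⟨D, hD⟩ : ∃ D : ℕ, D = z / (32 * C) := ⟨_, rfl⟩
      have hAI := one_le_lenA C I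
      have hD1 : 32 * C * D ≤ z := by
        rw [hD]; exact Nat.mul_div_le z (32 * C)
      have hD2 : z < 32 * C * (D + 1) := by
        rw [hD]; exact Nat.lt_mul_div_succ z (by omega)
      have hG := hGNB E K M N κ X'
      have hGc : (Gn M N κ P X' (lenA C I) T).ncard < I * (D + 1) := by
        have h1 : (Gn M N κ P X' (lenA C I) T).ncard ≤ (Pl M N κ P X' T).ncard :=
          ncard_le_ncard (hG.2.2 P (lenA C I) T) (toFinite _)
        have h2 : I * (D + 1) = 2 * C * (32 * C * (D + 1)) := by rw [hI]; ring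
        have h3 : C * z ≤ 2 * C * z := by nlinarith
        have h4 : 2 * C * z < 2 * C * (32 * C * (D + 1)) :=
          Nat.mul_lt_mul_of_pos_left hD2 (by omega)
        omega
      obtain ⟨i, T', P', hiI, hop, hrob⟩ := hHML E K M N κ X'
        (fun m => 16 * C * m * (m + 1)) (lenA C) D (fun i => lenA_succ C i) I T P hGc
      obtain ⟨m, hm⟩ : ∃ m : ℕ, m = lenA C i := ⟨_, rfl⟩
      have hm1 : 1 ≤ m := by rw [hm]; exact one_le_lenA C i
      have hm2 : m ≤ lenA C I := by rw [hm]; exact lenA_mono C hiI.le
      obtain ⟨v, hv⟩ : ∃ v : ℕ, m + v = 16 * C * m := by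
        refine ⟨16 * C * m - m, ?_⟩
        have : m ≤ 16 * C * m := Nat.le_mul_of_pos_left m (by omega)
        omega
      have hO := hOPB E K M N κ X'
      obtain ⟨hPP, hPc, -⟩ := hO.2.2.1 (lenA C I) T P T' P' hop
      obtain ⟨hst2, hun2⟩ := hO.2.2.2 s t (lenA C I) T P T' P' hcol hmx hst' hop
      rw [hun', ncard_singleton] at hun2
      have hne : (Un κ X' T').Nonempty := by
        rw [← ncard_pos (toFinite _), hun2]
        exact Nat.one_pos
      have hzbig : 1000 * lenA C I ≤ z := by
        have : 1000 * lenA C I ≤ 1000 * C * lenA C I := by nlinarith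
        omega
      obtain ⟨ζ, hζ⟩ : ∃ ζ : ℕ, t + P'.ncard + ζ = s := ⟨s - (t + P'.ncard), by omega⟩
      have hrob' : Rob M N κ X' ((m + v) * (m + 1)) m D T' P' := by
        rw [hv, hm]; exact hrob
      obtain ⟨q, hq⟩ : ∃ q : ℕ, q = {y ∈ T' | κ y ∈ Gn M N κ P' X'
        ((m + v) * (m + 1) + m + 1) T'}.ncard := ⟨_, rfl⟩
      have hqC : q ≤ C * z := by
        rw [hq]
        refine le_trans (card_col_le κ T' _ hst2.ri.inj) ?_
        refine le_trans (ncard_le_ncard ?_ (toFinite _)) hPl
        exact (hG.2.1 (lenA C I) _ T P T' P' hop).trans (hG.2.2 P _ T)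
      have hwpos : 0 < 16 * C * m := by positivity
      obtain ⟨l, hl⟩ : ∃ l : ℕ, l = (q - D) / (16 * C * m) := ⟨_, rfl⟩
      have hl1 : l * (m + v) ≤ q - D := by
        rw [hv, hl]; exact Nat.div_mul_le_self _ _
      have hl2 : q - D < (l + 1) * (m + v) := by
        rw [hv, hl, mul_comm]
        exact Nat.lt_mul_div_succ (q - D) hwpos
      have hlor : l = 0 ∨ D + l * (m + v) ≤ q := by
        rcases Nat.eq_zero_or_pos l with h | h
        · exact Or.inl h
        · right
          have h1 : 0 < l * (m + v) := by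
            rw [hv]; positivity
          omega
      obtain ⟨b, hb1, hb2⟩ := hEND E K M N κ s t P' X' T' m v D ζ q hcol hmx hst2 hne hm1
        (le_of_eq hζ) hrob' hq l hlor
      refine hARI C z m v D ζ q l b hC hm1 hv hD1 ?_ hqC hb1 ?_ ?_ hlor ?_
      · clear hl1 hl2 hlor hb1 hb2 hGc
        omega
      · clear hl1 hl2 hlor hb1 hGc hD1 hD2
        omega
      · clear hb1 hb2 hGc hD1 hD2
        omega
      · have h1 : 16 * (16 * C * m + m) ≤ 272 * (C * m) := by
          have : m ≤ C * m := Nat.le_mul_of_pos_left m hC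
          have e : 16 * (16 * C * m + m) = 256 * (C * m) + 16 * m := by ring
          rw [e]
          omega
        have h2 : C * m ≤ C * lenA C I := Nat.mul_le_mul_left C hm2
        have h3 : 1000 * C * lenA C I = 1000 * (C * lenA C I) := by ring
        rw [h3] at hlt
        exact le_trans h1 (le_trans (by omega) hlt)

end Pool.Agent.RCM.H87
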